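import Pool.Agent.P.MP_376fb4_gt.Ellipsoid

/-!
Bodies with a polynomial power of the sectional volume function are ellipsoids.
-/

open Set Metric MeasureTheory

namespace Pool.Agent.Results.MP_376fb4_gt.Ellipsoid

/-- `S` is a hypersurface of class `C^k`: near each of its points `p` it is the zero set of a
`C^k` function whose derivative at `p` is nonzero. -/
def IsHypersurface {n : ℕ} (k : WithTop ℕ∞) (S : Set (EuclideanSpace ℝ (Fin n))) : Prop :=
  ∀ p ∈ S, ∃ U : Set (EuclideanSpace ℝ (Fin n)), IsOpen U ∧ p ∈ U ∧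
    ∃ g : EuclideanSpace ℝ (Fin n) → ℝ,
      ContDiffOn ℝ k g U ∧ fderiv ℝ g p ≠ 0 ∧ S ∩ U = {x ∈ U | g x = 0}

/-- The sectional volume function: the `(n-1)`-dimensional volume of the section of `K` by the
hyperplane `⟪x, ξ⟫ = t`. -/
noncomputable def sectionVol {n : ℕ} (K : Set (EuclideanSpace ℝ (Fin n)))
    (ξ : EuclideanSpace ℝ (Fin n)) (t : ℝ) : ℝ :=
  (Measure.euclideanHausdorffMeasure (n - 1) (K ∩ {x | inner ℝ x ξ = t})).toReal

/-- If a body `K` in `ℝ^n` has a boundary of class `C^k` with `k ≥ 2` (for instance `k = ∞`) and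
the `m`-th power of the sectional volume is a polynomial in `t` for every unit direction, then
the boundary of `K` is an ellipsoid. -/
theorem result (n : ℕ) (hn : 2 ≤ n) (k : WithTop ℕ∞) (hk : 2 ≤ k)
    (K : Set (EuclideanSpace ℝ (Fin n))) (hK : IsCompact K) (hne : K.Nonempty)
    (hcl : closure (interior K) = K) (hS : IsHypersurface k (frontier K)) (m : ℕ) (hm : 1 ≤ m)
    (hP : ∀ ξ : EuclideanSpace ℝ (Fin n), ‖ξ‖ = 1 → ∃ P : Polynomial ℝ, ∀ t : ℝ,
      (∃ x ∈ interior K, inner ℝ x ξ = t) → sectionVol K ξ t ^ m = P.eval t) :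
    ∃ (c : EuclideanSpace ℝ (Fin n))
      (L : EuclideanSpace ℝ (Fin n) ≃ₗ[ℝ] EuclideanSpace ℝ (Fin n)),
      frontier K = (fun y => c + L y) '' sphere 0 1 := by
  refine P.MP_376fb4_gt.Hyp.ellipsoid (m := m)
    ⟨P.MP_376fb4_gt.geo_of_smooth hK hne hcl fun p hp => ?_, by simpa using hn, by omega,
      fun ξ hξ => ?_⟩
  · obtain ⟨U, hU, hpU, g, hg, hg'⟩ := hS p hp
    exact ⟨U, hU, hpU, g, hg.of_le hk, hg'⟩
  · obtain ⟨Q, hQ⟩ := hP ξ hξ
    refine ⟨Q, fun t ht => ?_⟩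
    rw [← hQ t ht, sectionVol, P.MP_376fb4_gt.sec, finrank_euclideanSpace_fin]

end Pool.Agent.Results.MP_376fb4_gt.Ellipsoid
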